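import Pool.Agent.W98.OS.Defs

set_option autoImplicit false

namespace Pool.Agent.W111.OS

open Pool.Agent.W98.OS

variable {R : Type*} [CommRing R]

theorem row_lin2 (x c c' : R) : ∀ (h : Bool) (ys : List R) (vs : List Bool)
    (F G : List Bool → R),
    row x h ys vs (fun w => c * F w + c' * G w) = c * row x h ys vs F + c' * row x h ys vs G
  | h, [], [], F, G => by cases h <;> simp [row]
  | h, [], _ :: _, F, G => by cases h <;> simp [row]
  | h, _ :: _, [], F, G => by cases h <;> simp [row]
  | false, y :: ys, false :: vs, F, G => by
      simp only [row]
      rw [row_lin2 x c c' false ys vs (fun u => F (false :: u)) (fun u => G (false :: u)),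
        row_lin2 x c c' true ys vs (fun u => F (true :: u)) (fun u => G (true :: u))]
      ring
  | true, y :: ys, true :: vs, F, G => by
      simp only [row]
      rw [row_lin2 x c c' false ys vs (fun u => F (false :: u)) (fun u => G (false :: u)),
        row_lin2 x c c' true ys vs (fun u => F (true :: u)) (fun u => G (true :: u))]
      ring
  | true, y :: ys, false :: vs, F, G => by
      simp only [row]
      rw [row_lin2 x c c' true ys vs (fun u => F (false :: u)) (fun u => G (false :: u))]
      ring
  | false, y :: ys, true :: vs, F, G => by
      simp only [row]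
      rw [row_lin2 x c c' false ys vs (fun u => F (true :: u)) (fun u => G (true :: u))]
      ring

theorem row_smul (x c : R) (h : Bool) (ys : List R) (vs : List Bool) (F : List Bool → R) :
    row x h ys vs (fun w => c * F w) = c * row x h ys vs F := by
  have := row_lin2 x c 0 h ys vs F F
  simpa using this

theorem row_congr (x : R) : ∀ (h : Bool) (ys : List R) (vs : List Bool)
    (F G : List Bool → R), (∀ w, w.length = ys.length → F w = G w) →
    row x h ys vs F = row x h ys vs G
  | h, [], [], F, G, H => by
      have := H [] rfl
      cases h <;> simp [row, this]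
  | h, [], _ :: _, F, G, H => by cases h <;> simp [row]
  | h, _ :: _, [], F, G, H => by cases h <;> simp [row]
  | false, y :: ys, false :: vs, F, G, H => by
      simp only [row]
      rw [row_congr x false ys vs (fun u => F (false :: u)) (fun u => G (false :: u))
          (fun w hw => H _ (by simp [hw])),
        row_congr x true ys vs (fun u => F (true :: u)) (fun u => G (true :: u))
          (fun w hw => H _ (by simp [hw]))]
  | true, y :: ys, true :: vs, F, G, H => by
      simp only [row]
      rw [row_congr x false ys vs (fun u => F (false :: u)) (fun u => G (false :: u))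
          (fun w hw => H _ (by simp [hw])),
        row_congr x true ys vs (fun u => F (true :: u)) (fun u => G (true :: u))
          (fun w hw => H _ (by simp [hw]))]
  | true, y :: ys, false :: vs, F, G, H => by
      simp only [row]
      rw [row_congr x true ys vs (fun u => F (false :: u)) (fun u => G (false :: u))
          (fun w hw => H _ (by simp [hw]))]
  | false, y :: ys, true :: vs, F, G, H => by
      simp only [row]
      rw [row_congr x false ys vs (fun u => F (true :: u)) (fun u => G (true :: u))
          (fun w hw => H _ (by simp [hw]))]

theorem opAt_lin2 (a b c c' : R) : ∀ (n : ℕ) (F G : List Bool → R) (v : List Bool),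
    opAt a b n (fun w => c * F w + c' * G w) v = c * opAt a b n F v + c' * opAt a b n G v
  | 0, F, G, [] => by simp [opAt]
  | 0, F, G, [_] => by simp [opAt]
  | 0, F, G, s :: t :: u => by
      cases s <;> cases t <;> simp only [opAt, opR] <;> ring
  | n + 1, F, G, [] => by simp [opAt]
  | n + 1, F, G, s :: u => by
      simp only [opAt]
      exact opAt_lin2 a b c c' n (fun w => F (s :: w)) (fun w => G (s :: w)) u

theorem T_EXCH (h1 : S_COL) (h2 : S_ROW2) : S_EXCH := by
  intro R _ d e hde a b l₁ l₂
  induction l₁ with
  | nil =>
    intro v hv
    rcases v with _ | ⟨s, _ | ⟨t, u⟩⟩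
    · simp only [List.length_nil] at hv
      omega
    · simp only [List.length_nil, List.length_cons] at hv
      omega
    · have hu : u.length = l₂.length := by
        simp only [List.length_nil, List.length_cons] at hv
        omega
      set G := Zf d e l₂ with hG
      have H := fun s t => h2 R a b l₂ G u s t hu
      have Hff := H false false
      have Hft := H false true
      have Htf := H true false
      have Htt := H true true
      simp only [opR] at Hff Hft Htf Htt
      simp only [List.length_nil, List.nil_append]
      rcases hde with ⟨hd, he⟩ | hd
      · subst he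
        cases s <;> cases t <;>
          simp only [opAt, opR, Zf, row, row_lin2, ← hG, hd]
        · linear_combination (1 - a - b) * Hff + Htt
        · linear_combination (1 - a * b) * Hft
        · linear_combination (1 - a * b) * Htf
        · linear_combination kap a * kap b * Hff + (1 - a - b) * Htt
      · cases s <;> cases t <;>
          simp only [opAt, opR, Zf, row, row_lin2, ← hG, hd, kap] at Hff Hft Htf Htt ⊢
        · linear_combination (1 - 2 * a) * (1 - a - b) * (1 - 2 * b) * Hff +
            (1 - 2 * a) * (1 - a - b) * e * Hft +
            ((1 - 2 * a) * e * (1 - b + b ^ 2) + e * (1 - a * b) * (1 - 2 * b)) * Htf +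
            ((1 - 2 * a) * (1 - 2 * b) + e * (1 - a * b) * e) * Htt
        · linear_combination
            (e * (1 - a + a ^ 2) * (1 - b + b ^ 2) * (1 - 2 * b) +
              (1 - 2 * a) * (1 - a * b) * e * (1 - b + b ^ 2)) * Hff +
            (e * (1 - a + a ^ 2) * (1 - b + b ^ 2) * e +
              (1 - 2 * a) * (1 - a * b) * (1 - 2 * b)) * Hft +
            (e * (1 - a - b) * e * (1 - b + b ^ 2)) * Htf +
            (e * (1 - a - b) * (1 - 2 * b)) * Htt
        · linear_combination
            (e * (1 - a + a ^ 2) * (1 - a - b) * (1 - 2 * b)) * Hff +
            (e * (1 - a + a ^ 2) * (1 - a - b) * e) * Hft +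
            (e * (1 - a + a ^ 2) * e * (1 - b + b ^ 2) +
              (1 - 2 * a) * (1 - a * b) * (1 - 2 * b)) * Htf +
            (e * (1 - a + a ^ 2) * (1 - 2 * b) + (1 - 2 * a) * (1 - a * b) * e) * Htt
        · linear_combination
            ((1 - 2 * a) * (1 - a + a ^ 2) * (1 - b + b ^ 2) * (1 - 2 * b) +
              e * (1 - a + a ^ 2) * (1 - a * b) * e * (1 - b + b ^ 2)) * Hff +
            ((1 - 2 * a) * (1 - a + a ^ 2) * (1 - b + b ^ 2) * e +
              e * (1 - a + a ^ 2) * (1 - a * b) * (1 - 2 * b)) * Hft +
            ((1 - 2 * a) * (1 - a - b) * e * (1 - b + b ^ 2)) * Htf +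
            ((1 - 2 * a) * (1 - a - b) * (1 - 2 * b)) * Htt
  | cons x l ih =>
    intro v hv
    rcases v with _ | ⟨s, v'⟩
    · simp only [List.length_nil, List.length_cons] at hv
      omega
    · have hv' : v'.length = l.length + 2 + l₂.length := by
        simp only [List.length_cons] at hv
        omega
      have key : ∀ h, opAt a b l.length
          (fun w => row x h (l ++ b :: a :: l₂) w (Zf d e (l ++ b :: a :: l₂))) v' =
          (1 - b + a * b) * row x h (l ++ a :: b :: l₂) v' (Zf d e (l ++ a :: b :: l₂)) := by
        intro h
        rw [h1 R x a b h l l₂ _ v' hv', ← row_smul]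
        apply row_congr
        intro w hw
        apply ih w
        simp only [List.length_append, List.length_cons] at hw
        omega
      cases s
      · simp only [List.length_cons, List.cons_append, opAt, Zf]
        rw [opAt_lin2, key, key]
        ring
      · simp only [List.length_cons, List.cons_append, opAt, Zf]
        rw [opAt_lin2, key, key]
        ring

end Pool.Agent.W111.OS
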