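import Pool.Agent.W111.OS.EXCH

set_option autoImplicit false

namespace Pool.Agent.W111.OS

open Pool.Agent.W98.OS

section hom

variable {R S : Type*} [CommRing R] [CommRing S]

theorem kap_map (f : R →+* S) (x : R) : f (kap x) = kap (f x) := by simp [kap]

theorem row_map (f : R →+* S) (x : R) : ∀ (h : Bool) (ys : List R) (vs : List Bool)
    (F : List Bool → R),
    f (row x h ys vs F) = row (f x) h (ys.map f) vs (fun u => f (F u))
  | h, [], [], F => by cases h <;> simp [row]
  | h, [], _ :: _, F => by cases h <;> simp [row]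
  | h, _ :: _, [], F => by cases h <;> simp [row]
  | false, y :: ys, false :: vs, F => by
      simp only [row, List.map_cons, map_add, map_mul, map_sub, map_one]
      rw [row_map f x false ys vs (fun u => F (false :: u)),
        row_map f x true ys vs (fun u => F (true :: u))]
  | true, y :: ys, true :: vs, F => by
      simp only [row, List.map_cons, map_add, map_mul, map_sub, map_one, kap_map]
      rw [row_map f x false ys vs (fun u => F (false :: u)),
        row_map f x true ys vs (fun u => F (true :: u))]
  | true, y :: ys, false :: vs, F => by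
      simp only [row, List.map_cons, map_add, map_mul, map_sub, map_one]
      rw [row_map f x true ys vs (fun u => F (false :: u))]
  | false, y :: ys, true :: vs, F => by
      simp only [row, List.map_cons, map_add, map_mul, map_sub, map_one]
      rw [row_map f x false ys vs (fun u => F (true :: u))]

theorem Zf_map (f : R →+* S) (d : R → R) (d' : S → S) (e : R) (e' : S)
    (hd : ∀ x, f (d x) = d' (f x)) (he : f e = e') : ∀ (xs : List R) (vs : List Bool),
    f (Zf d e xs vs) = Zf d' e' (xs.map f) vs
  | [], [] => by simp [Zf]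
  | [], _ :: _ => by simp [Zf]
  | _ :: _, [] => by simp [Zf]
  | x :: xs, false :: vs => by
      simp only [Zf, List.map_cons, map_add, map_mul, row_map, hd, he,
        Zf_map f d d' e e' hd he xs]
  | x :: xs, true :: vs => by
      simp only [Zf, List.map_cons, map_add, map_mul, row_map, hd, he, kap_map,
        Zf_map f d d' e e' hd he xs]

theorem Ef_map (f : R →+* S) (xs : List R) (vs : List Bool) :
    f (Ef xs vs) = Ef (xs.map f) vs := by
  unfold Ef
  exact Zf_map f _ _ _ _ (fun x => by simp) (by simp) xs vs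

theorem prod_map (f : R →+* S) (xs : List R) :
    f ((xs.map fun y => 1 - 2 * y).prod) = ((xs.map f).map fun y => 1 - 2 * y).prod := by
  induction xs with
  | nil => simp
  | cons x xs ih =>
    simp only [List.map_cons, List.prod_cons, map_mul, map_sub, map_one, map_ofNat, ih]

theorem Wf_map (f : R →+* S) : ∀ (xs : List R) (vs : List Bool),
    f (Wf xs vs) = Wf (xs.map f) vs
  | [], _ => by simp [Wf]
  | _ :: _, [] => by simp [Wf]
  | x :: xs, false :: vs => by
      simp only [Wf, List.map_cons, map_add, map_mul, row_map, map_sub, map_one, map_ofNat,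
        Wf_map f xs, Ef_map, prod_map]
  | x :: xs, true :: vs => by
      simp only [Wf, List.map_cons, map_add, map_mul, row_map, map_sub, map_one, map_ofNat,
        Wf_map f xs, Ef_map, prod_map, kap_map]

end hom

open DualNumber TrivSqZeroExt

theorem Zf_dual {R : Type*} [CommRing R] : ∀ (xs : List R) (vs : List Bool),
    Zf (fun x => 1 - 2 * x) (ε : DualNumber R) (xs.map (algebraMap R (DualNumber R))) vs =
      algebraMap R (DualNumber R) ((xs.map fun y => 1 - 2 * y).prod * Ef xs vs) +
        algebraMap R (DualNumber R) (Wf xs vs) * ε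
  | [], [] => by simp [Zf, Ef, Wf]
  | [], _ :: _ => by simp [Zf, Ef, Wf]
  | x :: xs, [] => by simp [Zf, Ef, Wf]
  | x :: xs, false :: vs => by
      have hF : (Zf (fun x => 1 - 2 * x) (ε : DualNumber R)
          (xs.map (algebraMap R (DualNumber R)))) = fun vs =>
          algebraMap R (DualNumber R) ((xs.map fun y => 1 - 2 * y).prod) *
            algebraMap R (DualNumber R) (Ef xs vs) +
          ε * algebraMap R (DualNumber R) (Wf xs vs) := by
        funext vs
        rw [Zf_dual xs vs, map_mul, mul_comm (algebraMap R (DualNumber R) (Wf xs vs))]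
      have hE : Ef (x :: xs) (false :: vs) = row x false xs vs (Ef xs) := by
        simp [Ef, Zf]
        rfl
      simp only [List.map_cons, Zf, Wf, hE, List.prod_cons]
      rw [hF]
      simp only [row_lin2, ← row_map]
      simp only [map_add, map_mul, map_sub, map_one, map_ofNat]
      have he : (ε : DualNumber R) * ε = 0 := DualNumber.eps_mul_eps
      linear_combination (algebraMap R (DualNumber R) (row x true xs vs (Wf xs))) * he
  | x :: xs, true :: vs => by
      have hF : (Zf (fun x => 1 - 2 * x) (ε : DualNumber R)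
          (xs.map (algebraMap R (DualNumber R)))) = fun vs =>
          algebraMap R (DualNumber R) ((xs.map fun y => 1 - 2 * y).prod) *
            algebraMap R (DualNumber R) (Ef xs vs) +
          ε * algebraMap R (DualNumber R) (Wf xs vs) := by
        funext vs
        rw [Zf_dual xs vs, map_mul, mul_comm (algebraMap R (DualNumber R) (Wf xs vs))]
      have hE : Ef (x :: xs) (true :: vs) = row x true xs vs (Ef xs) := by
        simp [Ef, Zf]
        rfl
      simp only [List.map_cons, Zf, Wf, hE, List.prod_cons]
      rw [hF]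
      simp only [row_lin2, ← row_map, ← kap_map]
      simp only [map_add, map_mul, map_sub, map_one, map_ofNat]
      have he : (ε : DualNumber R) * ε = 0 := DualNumber.eps_mul_eps
      linear_combination (algebraMap R (DualNumber R) (kap x) *
        algebraMap R (DualNumber R) (row x false xs vs (Wf xs))) * he

theorem opAt_zs {R : Type*} [CommRing R] (a b : R) : ∀ (n m : ℕ) (F : List Bool → R),
    n + 2 ≤ m → opAt a b n F (zs m) = (1 - b + a * b) * F (zs m)
  | 0, m, F, h => by
      obtain ⟨k, rfl⟩ : ∃ k, m = k + 2 := ⟨m - 2, by omega⟩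
      simp [zs, List.replicate_succ, opAt, opR]
  | n + 1, m, F, h => by
      obtain ⟨k, rfl⟩ : ∃ k, m = k + 1 := ⟨m - 1, by omega⟩
      have h1 := opAt_zs a b n k (fun w => F (false :: w)) (by omega)
      simpa [zs, List.replicate_succ, opAt] using h1

/-- the exchange with factor in every ring -/
theorem Z0_fac (h : S_EXCH) {R : Type} [CommRing R] (a b : R) (l₁ l₂ : List R) :
    (1 - b + a * b) * Z0 (l₁ ++ b :: a :: l₂) = (1 - b + a * b) * Z0 (l₁ ++ a :: b :: l₂) := by
  have h1 := h R (fun _ => 1) 0 (Or.inl ⟨fun _ => rfl, rfl⟩) a b l₁ l₂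
    (zs (l₁.length + 2 + l₂.length)) (by simp [zs])
  rw [opAt_zs _ _ _ _ _ (by omega)] at h1
  have e1 : (l₁ ++ b :: a :: l₂).length = l₁.length + 2 + l₂.length := by simp; omega
  have e2 : (l₁ ++ a :: b :: l₂).length = l₁.length + 2 + l₂.length := by simp; omega
  unfold Z0 Ef
  rw [e1, e2]
  exact h1

theorem W0_fac (h : S_EXCH) {R : Type} [CommRing R] (a b : R) (l₁ l₂ : List R) :
    (1 - b + a * b) * W0 (l₁ ++ b :: a :: l₂) = (1 - b + a * b) * W0 (l₁ ++ a :: b :: l₂) := by
  set φ := algebraMap R (DualNumber R) with hφ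
  have h1 := h (DualNumber R) (fun x => 1 - 2 * x) ε (Or.inr fun _ => rfl) (φ a) (φ b)
    (l₁.map φ) (l₂.map φ) (zs (l₁.length + 2 + l₂.length)) (by simp [zs])
  rw [opAt_zs _ _ _ _ _ (by simp)] at h1
  have m1 : l₁.map φ ++ φ b :: φ a :: l₂.map φ = (l₁ ++ b :: a :: l₂).map φ := by simp
  have m2 : l₁.map φ ++ φ a :: φ b :: l₂.map φ = (l₁ ++ a :: b :: l₂).map φ := by simp
  rw [m1, m2, Zf_dual, Zf_dual] at h1
  have e1 : (l₁ ++ b :: a :: l₂).length = l₁.length + 2 + l₂.length := by simp; omega
  have e2 : (l₁ ++ a :: b :: l₂).length = l₁.length + 2 + l₂.length := by simp; omega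
  have h2 := congrArg TrivSqZeroExt.snd h1
  have hr : (1 - φ b + φ a * φ b : DualNumber R) = φ (1 - b + a * b) := by simp
  rw [hr] at h2
  unfold W0
  rw [e1, e2]
  have key : ∀ r A B : R, TrivSqZeroExt.snd (φ r * (φ A + φ B * (ε : DualNumber R))) = r * B := by
    intro r A B
    simp [hφ, TrivSqZeroExt.algebraMap_eq_inl]
  rw [key, key] at h2
  exact h2

noncomputable section

/-- list of variables -/
def Vl (n : ℕ) : List (MvPolynomial ℕ ℤ) := (List.range n).map fun i => MvPolynomial.X i

/-- shifted list of variables -/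
def Vm (n m : ℕ) : List (MvPolynomial ℕ ℤ) :=
  (List.range m).map fun i => MvPolynomial.X (n + 2 + i)

theorem r_ne (n : ℕ) : (1 - MvPolynomial.X (n + 1) + MvPolynomial.X n * MvPolynomial.X (n + 1) :
    MvPolynomial ℕ ℤ) ≠ 0 := by
  intro h
  have := congrArg (MvPolynomial.eval (fun _ => (0 : ℤ))) h
  simp at this

theorem exch (h : S_EXCH) {R : Type} [CommRing R] (a b : R) (l₁ l₂ : List R) :
    Z0 (l₁ ++ b :: a :: l₂) = Z0 (l₁ ++ a :: b :: l₂) ∧
    W0 (l₁ ++ b :: a :: l₂) = W0 (l₁ ++ a :: b :: l₂) := by
  set n := l₁.length with hn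
  set m := l₂.length with hm
  set A : MvPolynomial ℕ ℤ := MvPolynomial.X n with hA
  set B : MvPolynomial ℕ ℤ := MvPolynomial.X (n + 1) with hB
  have u1 : Z0 (Vl n ++ B :: A :: Vm n m) = Z0 (Vl n ++ A :: B :: Vm n m) :=
    mul_left_cancel₀ (r_ne n) (Z0_fac h A B (Vl n) (Vm n m))
  have u2 : W0 (Vl n ++ B :: A :: Vm n m) = W0 (Vl n ++ A :: B :: Vm n m) :=
    mul_left_cancel₀ (r_ne n) (W0_fac h A B (Vl n) (Vm n m))
  set L : List R := l₁ ++ a :: b :: l₂ with hL
  set φ : MvPolynomial ℕ ℤ →+* R :=
    MvPolynomial.eval₂Hom (Int.castRingHom R) (fun i => L.getD i 0) with hφ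
  have φX : ∀ i, φ (MvPolynomial.X i) = L.getD i 0 := by
    intro i
    simp [hφ]
  have m1 : (Vl n).map φ = l₁ := by
    apply List.ext_getElem
    · simp [Vl, hn]
    · intro i h1 h2
      simp only [Vl, List.getElem_map, List.getElem_range, φX]
      simp [hL, List.getD, List.getElem?_append_left h2, List.getElem?_eq_getElem h2]
  have m2 : (Vm n m).map φ = l₂ := by
    apply List.ext_getElem
    · simp [Vm, hm]
    · intro i h1 h2
      simp only [Vm, List.getElem_map, List.getElem_range, φX]
      have : (l₁ ++ a :: b :: l₂)[n + 2 + i]? = l₂[i]? := by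
        rw [List.getElem?_append_right (by omega)]
        have e : n + 2 + i - l₁.length = i + 2 := by omega
        rw [e]
        simp
      simp [hL, List.getD, this, List.getElem?_eq_getElem h2]
  have mA : φ A = a := by
    rw [hA, φX]
    simp [hL, List.getD, hn]
  have mB : φ B = b := by
    rw [hB, φX]
    have : (l₁ ++ a :: b :: l₂)[n + 1]? = some b := by
      rw [List.getElem?_append_right (by omega)]
      have e : n + 1 - l₁.length = 1 := by omega
      rw [e]
      simp
    simp [hL, List.getD, this]
  have c1 : (Vl n ++ B :: A :: Vm n m).map φ = l₁ ++ b :: a :: l₂ := by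
    simp [m1, m2, mA, mB]
  have c2 : (Vl n ++ A :: B :: Vm n m).map φ = l₁ ++ a :: b :: l₂ := by
    simp [m1, m2, mA, mB]
  have z : ∀ l : List (MvPolynomial ℕ ℤ), φ (Z0 l) = Z0 (l.map φ) := by
    intro l
    unfold Z0
    rw [Ef_map]
    simp
  have w : ∀ l : List (MvPolynomial ℕ ℤ), φ (W0 l) = W0 (l.map φ) := by
    intro l
    unfold W0
    rw [Wf_map]
    simp
  constructor
  · have := congrArg φ u1
    rwa [z, z, c1, c2] at this
  · have := congrArg φ u2
    rwa [w, w, c1, c2] at this

end

theorem T_PERM (h : S_EXCH) : S_PERM := by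
  intro R _ l l' hp
  have key : ∀ p : List R, Z0 (p ++ l) = Z0 (p ++ l') ∧ W0 (p ++ l) = W0 (p ++ l') := by
    induction hp with
    | nil => intro p; exact ⟨rfl, rfl⟩
    | cons x _ ih =>
      intro p
      have := ih (p ++ [x])
      simpa using this
    | swap x y l =>
      intro p
      exact exch h x y p l
    | trans _ _ ih1 ih2 =>
      intro p
      exact ⟨(ih1 p).1.trans (ih2 p).1, (ih1 p).2.trans (ih2 p).2⟩
  simpa using key []

end Pool.Agent.W111.OS
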